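import Pool.Agent.H4.EPB.Stm
import Pool.Agent.H87.EP.Z

/-! Part BB3 of the project EP: prime divisors in a model of PA. -/

set_option autoImplicit false

namespace Pool.Agent.H26.EP

open Pool.Agent.Helper687.Arith Pool.Agent.H51.EP Pool.Agent.H87.EP Pool.Agent.H4.EPB

theorem bez {M : Type} [PAModel M] (a p : M) (hp : 0 < p) :
    ∃ d : M, 0 < d ∧ (d : Zr M) ∣ (a : Zr M) ∧ (d : Zr M) ∣ (p : Zr M) ∧
      ∃ s t : Zr M, (d : Zr M) = s * a + t * p := by
  obtain ⟨d, ⟨hd0, s1, s2, t1, t2, hd⟩, hmin⟩ := least (P := fun d : M => 0 < d ∧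
    ∃ s1 s2 t1 t2 : M, (d : Zr M) = ((s1 : Zr M) - (s2 : Zr M)) * (a : Zr M) +
      ((t1 : Zr M) - (t2 : Zr M)) * (p : Zr M)) (by (repeat' first | with_reducible apply Pool.Agent.H87.EP.DefZ.eq | with_reducible apply Pool.Agent.H87.EP.DefZ.lt | with_reducible apply Pool.Agent.H87.EP.DefZ.le | with_reducible apply Pool.Agent.H87.EP.DefZ.dvd | with_reducible exact Pool.Agent.H87.EP.DefZ.const _ | with_reducible apply Pool.Agent.H87.EP.DefZ.coe | with_reducible apply Pool.Agent.H87.EP.DefZ.add | with_reducible apply Pool.Agent.H87.EP.DefZ.mul | with_reducible apply Pool.Agent.H87.EP.DefZ.sub | with_reducible apply Pool.Agent.H87.EP.DefZ.neg | with_reducible apply Pool.Agent.H87.EP.DefZ.npow | with_reducible apply Pool.Agent.H51.EP.Def.cg | with_reducible apply Pool.Agent.H51.EP.DefF.pr | with_reducible apply Pool.Agent.H51.EP.DefF.bn | with_reducible apply Pool.Agent.H51.EP.DefF.ff | with_reducible apply Pool.Agent.H51.EP.DefF.fc | with_reducible apply Pool.Agent.H51.EP.DefF.pw | with_reducible apply Pool.Agent.H51.EP.DefF.sb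 | with_reducible apply Pool.Agent.H51.EP.DefF.rc | with_reducible apply Pool.Agent.H51.EP.Def.dvd | assumption | with_reducible exact Pool.Agent.Helper687.Arith.DefF.var _ | with_reducible exact Pool.Agent.Helper687.Arith.DefF.const _ | with_reducible exact Pool.Agent.Helper687.Arith.Def.const _ | with_reducible apply Pool.Agent.Helper687.Arith.DefF.val | with_reducible apply Pool.Agent.Helper687.Arith.DefF.pow2 | with_reducible apply Pool.Agent.Helper687.Arith.Def.and | with_reducible apply Pool.Agent.Helper687.Arith.Def.or | with_reducible apply Pool.Agent.Helper687.Arith.Def.iff | with_reducible apply Pool.Agent.Helper687.Arith.Def.not | with_reducible apply Pool.Agent.Helper687.Arith.Def.ex | with_reducible apply Pool.Agent.Helper687.Arith.Def.all | with_reducible apply Pool.Agent.Helper687.Arith.Def.imp | with_reducible apply Pool.Agent.Helper687.Arith.Def.eq | with_reducible apply Pool.Agent.Helper687.Arith.Def.lt | with_reducible apply Pool.Agent.Helper687.Arith.Def.le | with_reducible apply Pool.Agent.Helper687.Arith.DefF.add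 | with_reducible apply Pool.Agent.Helper687.Arith.DefF.mul | with_reducible apply Pool.Agent.Helper687.Arith.DefF.the)) ⟨p, hp, 0, 0, 1, 0, by push_cast; ring⟩
  have key : ∀ x : Zr M, (∃ s t : Zr M, x = s * a + t * p) → (d : Zr M) ∣ x := by
    rintro x ⟨s, t, hx⟩
    have hdz : (0 : Zr M) < (d : Zr M) := by rw [← Zr.coe_zero, Zr.coe_lt]; exact hd0
    obtain ⟨q, r, hq, hr0, hrd⟩ := Zr.exists_divmod x hdz
    obtain ⟨r', rfl⟩ := Zr.nonneg_iff.mp hr0
    rcases eq_or_ne r' 0 with h0 | h0
    · subst h0
      rw [Zr.coe_zero, add_zero] at hq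
      rw [hq]; exact dvd_mul_left _ _
    · exfalso
      rw [Zr.coe_lt] at hrd
      apply hmin r' hrd
      refine ⟨pos_of_ne h0, ?_⟩
      have e : (r' : Zr M) = (s - q * ((s1 : Zr M) - s2)) * a + (t - q * ((t1 : Zr M) - t2)) * p := by
        have : (r' : Zr M) = x - q * d := by rw [hq]; ring
        rw [this, hx, hd]; ring
      generalize (s - q * ((s1 : Zr M) - s2)) = σ at e
      generalize (t - q * ((t1 : Zr M) - t2)) = τ at e
      induction σ using Zr.ind with | h x1 x2
      induction τ using Zr.ind with | h y1 y2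
      exact ⟨x1, x2, y1, y2, by rw [e, Zr.mk_eq_sub, Zr.mk_eq_sub]⟩
  exact ⟨d, hd0, key _ ⟨1, 0, by ring⟩, key _ ⟨0, 1, by ring⟩, _, _, hd⟩

theorem bb3 : S_BB3 := by
  intro M _ n hn
  obtain ⟨p, ⟨hp1, hpn⟩, hmin⟩ := least (P := fun p : M => 1 < p ∧ p ∣ n) (by (repeat' first | with_reducible apply Pool.Agent.H87.EP.DefZ.eq | with_reducible apply Pool.Agent.H87.EP.DefZ.lt | with_reducible apply Pool.Agent.H87.EP.DefZ.le | with_reducible apply Pool.Agent.H87.EP.DefZ.dvd | with_reducible exact Pool.Agent.H87.EP.DefZ.const _ | with_reducible apply Pool.Agent.H87.EP.DefZ.coe | with_reducible apply Pool.Agent.H87.EP.DefZ.add | with_reducible apply Pool.Agent.H87.EP.DefZ.mul | with_reducible apply Pool.Agent.H87.EP.DefZ.sub | with_reducible apply Pool.Agent.H87.EP.DefZ.neg | with_reducible apply Pool.Agent.H87.EP.DefZ.npow | with_reducible apply Pool.Agent.H51.EP.Def.cg | with_reducible apply Pool.Agent.H51.EP.DefF.pr | with_reducible apply Pool.Agent.H51.EP.DefF.bn | with_reducible apply Pool.Agent.H51.EP.DefF.ff |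 with_reducible apply Pool.Agent.H51.EP.DefF.fc | with_reducible apply Pool.Agent.H51.EP.DefF.pw | with_reducible apply Pool.Agent.H51.EP.DefF.sb | with_reducible apply Pool.Agent.H51.EP.DefF.rc | with_reducible apply Pool.Agent.H51.EP.Def.dvd | assumption | with_reducible exact Pool.Agent.Helper687.Arith.DefF.var _ | with_reducible exact Pool.Agent.Helper687.Arith.DefF.const _ | with_reducible exact Pool.Agent.Helper687.Arith.Def.const _ | with_reducible apply Pool.Agent.Helper687.Arith.DefF.val | with_reducible apply Pool.Agent.Helper687.Arith.DefF.pow2 | with_reducible apply Pool.Agent.Helper687.Arith.Def.and | with_reducible apply Pool.Agent.Helper687.Arith.Def.or | with_reducible apply Pool.Agent.Helper687.Arith.Def.iff | with_reducible apply Pool.Agent.Helper687.Arith.Def.not | with_reducible apply Pool.Agent.Helper687.Arith.Def.ex | with_reducible apply Pool.Agent.Helper687.Arith.Def.all | with_reducible apply Pool.Agent.Helper687.Arith.Def.imp | with_reducible apply Pool.Agent.Helper687.Arith.Def.eq | with_reducible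 apply Pool.Agent.Helper687.Arith.Def.lt | with_reducible apply Pool.Agent.Helper687.Arith.Def.le | with_reducible apply Pool.Agent.Helper687.Arith.DefF.add | with_reducible apply Pool.Agent.Helper687.Arith.DefF.mul | with_reducible apply Pool.Agent.Helper687.Arith.DefF.the)) ⟨n, hn, dvd_rfl⟩
  refine ⟨p, ⟨hp1, fun a b hab => ?_⟩, hpn⟩
  obtain ⟨d, hd0, hda, hdp, s, t, hd⟩ := bez a p (zero_lt_one.trans hp1)
  by_cases h1 : d = 1
  · right
    rw [h1, Zr.coe_one] at hd
    rw [← Zr.coe_dvd] at hab ⊢
    rw [Zr.coe_mul] at hab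
    obtain ⟨e, he⟩ := hab
    exact ⟨s * e + t * b, by linear_combination (b : Zr M) * hd + s * he⟩
  · left
    rw [Zr.coe_dvd] at hda hdp
    have hd1 : 1 < d := by
      rcases lt_trichotomy d 1 with h | h | h
      · rw [lt_one_iff'] at h
        exact absurd h hd0.ne'
      · exact absurd h h1
      · exact h
    have hle : p ≤ d := by
      by_contra hlt
      push Not at hlt
      exact hmin d hlt ⟨hd1, hdp.trans hpn⟩
    have hle2 : d ≤ p := by
      have : (d : Zr M) ≤ (p : Zr M) := Zr.le_of_dvd
        (by rw [← Zr.coe_zero, Zr.coe_lt]; exact zero_lt_one.trans hp1) (Zr.coe_dvd.mpr hdp)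
      exact Zr.coe_le.mp this
    rw [le_antisymm hle hle2]
    exact hda

end Pool.Agent.H26.EP
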