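import Pool.Agent.H4.EPB.Stm

/-! Part BB4 of the project EP: divisors of falling factorials. -/

set_option autoImplicit false

namespace Pool.Agent.H26.EP

open Pool.Agent.Helper687.Arith Pool.Agent.H51.EP Pool.Agent.H4.EPB

theorem bb4 : S_BB4 := by
  refine ⟨?_, ?_⟩
  · intro M _ p a k hp
    refine ind (P := fun k => p ∣ ff a k → ∃ j, j < k ∧ Cg p a j) ?_ ?_ ?_ k
    · (repeat' first | with_reducible apply Pool.Agent.H51.EP.Def.cg | with_reducible apply Pool.Agent.H51.EP.DefF.pr | with_reducible apply Pool.Agent.H51.EP.DefF.bn | with_reducible apply Pool.Agent.H51.EP.DefF.ff | with_reducible apply Pool.Agent.H51.EP.DefF.fc | with_reducible apply Pool.Agent.H51.EP.DefF.pw | with_reducible apply Pool.Agent.H51.EP.DefF.sb | with_reducible apply Pool.Agent.H51.EP.DefF.rc | with_reducible apply Pool.Agent.H51.EP.Def.dvd | assumption | with_reducible exact Pool.Agent.Helper687.Arith.DefF.var _ | with_reducible exact Pool.Agent.Helper687.Arith.DefF.const _ | with_reducible exact Pool.Agent.Helper687.Arith.Def.const _ | with_reducible apply Pool.Agent.Helper687.Arith.DefF.val | with_reducible apply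 Pool.Agent.Helper687.Arith.DefF.pow2 | with_reducible apply Pool.Agent.Helper687.Arith.Def.and | with_reducible apply Pool.Agent.Helper687.Arith.Def.or | with_reducible apply Pool.Agent.Helper687.Arith.Def.iff | with_reducible apply Pool.Agent.Helper687.Arith.Def.not | with_reducible apply Pool.Agent.Helper687.Arith.Def.ex | with_reducible apply Pool.Agent.Helper687.Arith.Def.all | with_reducible apply Pool.Agent.Helper687.Arith.Def.imp | with_reducible apply Pool.Agent.Helper687.Arith.Def.eq | with_reducible apply Pool.Agent.Helper687.Arith.Def.lt | with_reducible apply Pool.Agent.Helper687.Arith.Def.le | with_reducible apply Pool.Agent.Helper687.Arith.DefF.add | with_reducible apply Pool.Agent.Helper687.Arith.DefF.mul | with_reducible apply Pool.Agent.Helper687.Arith.DefF.the)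
    · intro h
      rw [ff_zero] at h
      exfalso
      obtain ⟨c, hc⟩ := h
      have hp1 := hp.1
      have hc0 : 0 < c := by
        apply pos_of_ne
        rintro rfl
        rw [mul_zero] at hc
        exact one_ne_zero hc
      have : p * 1 ≤ p * c := by
        gcongr
        rw [← zero_add (1 : M)]
        exact succ_le_iff.mpr hc0
      rw [mul_one, ← hc] at this
      exact absurd hp1 (not_lt.mpr this)
    · intro k ih h
      rw [ff_succ] at h
      rcases hp.2 _ _ h with h | h
      · obtain ⟨j, hj, hc⟩ := ih h
        exact ⟨j, hj.trans (lt_succ_iff.mpr le_rfl), hc⟩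
      · rcases le_or_gt k a with hk | hk
        · obtain ⟨z, rfl⟩ := exists_add_of_le hk
          rw [sb_add'] at h
          exact ⟨k, lt_succ_iff.mpr le_rfl, cg_of_add h⟩
        · exact ⟨a, hk.trans (lt_succ_iff.mpr le_rfl), cg_rfl _ _⟩
  · intro M _ m a z k
    refine ind (P := fun k => z < k → Cg m a z → m ∣ ff a k) ?_ ?_ ?_ k
    · (repeat' first | with_reducible apply Pool.Agent.H51.EP.Def.cg | with_reducible apply Pool.Agent.H51.EP.DefF.pr | with_reducible apply Pool.Agent.H51.EP.DefF.bn | with_reducible apply Pool.Agent.H51.EP.DefF.ff | with_reducible apply Pool.Agent.H51.EP.DefF.fc | with_reducible apply Pool.Agent.H51.EP.DefF.pw | with_reducible apply Pool.Agent.H51.EP.DefF.sb | with_reducible apply Pool.Agent.H51.EP.DefF.rc | with_reducible apply Pool.Agent.H51.EP.Def.dvd | assumption | with_reducible exact Pool.Agent.Helper687.Arith.DefF.var _ | with_reducible exact Pool.Agent.Helper687.Arith.DefF.const _ | with_reducible exact Pool.Agent.Helper687.Arith.Def.const _ | with_reducible apply Pool.Agent.Helper687.Arith.DefF.val | with_reducible apply Pool.Agent.Helper687.Arith.DefF.pow2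 | with_reducible apply Pool.Agent.Helper687.Arith.Def.and | with_reducible apply Pool.Agent.Helper687.Arith.Def.or | with_reducible apply Pool.Agent.Helper687.Arith.Def.iff | with_reducible apply Pool.Agent.Helper687.Arith.Def.not | with_reducible apply Pool.Agent.Helper687.Arith.Def.ex | with_reducible apply Pool.Agent.Helper687.Arith.Def.all | with_reducible apply Pool.Agent.Helper687.Arith.Def.imp | with_reducible apply Pool.Agent.Helper687.Arith.Def.eq | with_reducible apply Pool.Agent.Helper687.Arith.Def.lt | with_reducible apply Pool.Agent.Helper687.Arith.Def.le | with_reducible apply Pool.Agent.Helper687.Arith.DefF.add | with_reducible apply Pool.Agent.Helper687.Arith.DefF.mul | with_reducible apply Pool.Agent.Helper687.Arith.DefF.the)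
    · intro h
      exact absurd h (not_lt.mpr zero_le)
    · intro k ih hz hc
      rw [ff_succ]
      rcases lt_succ_iff'.mp hz with h | h
      · exact (ih h hc).mul_right _
      · subst h
        apply Dvd.dvd.mul_left
        rcases le_or_gt z a with hk | hk
        · obtain ⟨w, rfl⟩ := exists_add_of_le hk
          rw [sb_add']
          exact cg_dvd hc
        · rw [sb_zero hk.le]
          exact dvd_zero _

end Pool.Agent.H26.EP
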