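import Pool.Agent.H4.EPB.Stm
import Pool.Agent.H87.EP.Z

/-! Part BB5 of the project EP: the moduli `m_k`. -/

set_option autoImplicit false

namespace Pool.Agent.H26.EP

open Pool.Agent.Helper687.Arith Pool.Agent.H51.EP Pool.Agent.H87.EP Pool.Agent.H4.EPB

/-- from coprimality in the ring of integers to the form `x m = y n + 1` -/
theorem cop_of_isCoprime {M : Type} [PAModel M] {m n : M} (hm : 0 < m) (hn : 0 < n)
    (h : IsCoprime (m : Zr M) (n : Zr M)) : Cop m n := by
  obtain ⟨s, t, hst⟩ := h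
  have hm1 : (1 : Zr M) ≤ m := by
    have : (0 : Zr M) < m := by rw [← Zr.coe_zero, Zr.coe_lt]; exact hm
    have := Zr.lt_iff_add_one_le.mp this
    linarith
  have hn1 : (1 : Zr M) ≤ n := by
    have : (0 : Zr M) < n := by rw [← Zr.coe_zero, Zr.coe_lt]; exact hn
    have := Zr.lt_iff_add_one_le.mp this
    linarith
  have hx : (1 : Zr M) ≤ s + (s ^ 2 + 2) * n := by
    have h2 : (s ^ 2 + 2) * 1 ≤ (s ^ 2 + 2) * (n : Zr M) :=
      mul_le_mul_of_nonneg_left hn1 (by positivity)
    nlinarith [sq_nonneg (2 * s + 1)]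
  have hy : (0 : Zr M) ≤ (s ^ 2 + 2) * m - t := by
    by_contra hneg
    push Not at hneg
    have h3 : ((s ^ 2 + 2) * (m : Zr M) - t) * n = (s + (s ^ 2 + 2) * n) * m - 1 := by
      linear_combination -hst
    have h4 : ((s ^ 2 + 2) * (m : Zr M) - t) * n < 0 := by nlinarith
    rw [h3] at h4
    have h5 : (1 : Zr M) ≤ (s + (s ^ 2 + 2) * n) * m := by nlinarith
    linarith
  obtain ⟨x, hx'⟩ := Zr.nonneg_iff.mp (zero_le_one.trans hx)
  obtain ⟨y, hy'⟩ := Zr.nonneg_iff.mp hy
  refine ⟨x, y, ?_⟩
  rw [← Zr.coe_inj]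
  push_cast
  rw [← hx', ← hy']
  linear_combination hst

/-- the basic facts on one modulus -/
theorem md_basic {M : Type} [PAModel M] {Q L c y : M} (h : Md Q L c y) {k m : M} (hk : k < y)
    (hm : (k + 1) * (m + 1) = c + 1) :
    (∃ e, L = (k + 1) * e ∧ m + 1 = e * L) ∧ c = k + (k + 1) * m ∧ 1 < m ∧
      bn c (k + 1) = bn c k * m := by
  have hkQ : k + 1 ≤ Q := (succ_le_iff.mpr hk).trans h.le
  obtain ⟨e, he⟩ := h.dvd (k + 1) (zero_lt_succ' k) hkQ
  have hme : m + 1 = e * L := by
    apply mul_left_cancel₀ (zero_lt_succ' k).ne'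
    rw [hm, h.sq, ← mul_assoc, ← he]
  have hc : c = k + (k + 1) * m := by
    apply add_right_cancel (b := 1)
    rw [← hm]; ring
  have hL0 : 0 < L := (zero_lt_one.trans_le (by
    have : (1 : M) ≤ 2 := by
      rw [← one_add_one_eq_two]; exact le_self_add
    exact this)).trans h.two
  have he0 : 0 < e := by
    apply pos_of_ne
    rintro rfl
    rw [mul_zero] at he
    exact hL0.ne' he
  refine ⟨⟨e, he, hme⟩, hc, ?_, ?_⟩
  · have h1 : L ≤ m + 1 := by
      rw [hme]
      calc L = 1 * L := (one_mul L).symm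
        _ ≤ e * L := by
          gcongr
          rw [← zero_add (1 : M)]
          exact succ_le_iff.mpr he0
    have h2 : (1 : M) + 1 < m + 1 := by
      rw [one_add_one_eq_two]
      exact h.two.trans_le h1
    exact lt_of_add_lt_add_right h2
  · apply mul_right_cancel₀ (zero_lt_succ' k).ne'
    rw [bn_succ_mul]
    have : sb c k = (k + 1) * m := by
      rw [hc, sb_add']
    rw [this]; ring

theorem md_exists {M : Type} [PAModel M] {Q L c y : M} (h : Md Q L c y) (k : M) (hk : k < y) :
    ∃ m, (k + 1) * (m + 1) = c + 1 := by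
  have hkQ : k + 1 ≤ Q := (succ_le_iff.mpr hk).trans h.le
  obtain ⟨e, he⟩ := h.dvd (k + 1) (zero_lt_succ' k) hkQ
  have hpos : 0 < e * L := by
    apply pos_of_ne
    intro h0
    have h1 : c + 1 = 0 := by
      rw [h.sq]
      nth_rewrite 1 [he]
      rw [mul_assoc, h0, mul_zero]
    exact (zero_lt_succ' c).ne' h1
  obtain ⟨m, hm⟩ := exists_pred hpos
  refine ⟨m, ?_⟩
  rw [← hm, h.sq, ← mul_assoc, ← he]

theorem md_cop_aux {M : Type} [PAModel M] {Q L c y : M} (h : Md Q L c y) {j k m n : M} (hj : j < y)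
    (hk : k < y) (hjk : j < k) (hm : (j + 1) * (m + 1) = c + 1) (hn : (k + 1) * (n + 1) = c + 1) :
    IsCoprime (m : Zr M) (n : Zr M) := by
  obtain ⟨⟨e, he, hme⟩, hcm, hm1, -⟩ := md_basic h hj hm
  obtain ⟨⟨f, hf, hnf⟩, hcn, hn1, -⟩ := md_basic h hk hn
  obtain ⟨d, hd⟩ := exists_add_of_le hjk.le
  have hd0 : 0 < d := by
    apply pos_of_ne
    rintro rfl
    rw [add_zero] at hd
    exact hjk.ne' hd
  have hdQ : d ≤ Q := by
    calc d ≤ k := by rw [hd]; exact le_add_self
      _ ≤ y := hk.le
      _ ≤ Q := h.le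
  obtain ⟨g, hg⟩ := h.dvd d hd0 hdQ
  have e1 := congrArg (fun x : M => (x : Zr M)) hcm
  have e2 := congrArg (fun x : M => (x : Zr M)) hcn
  have e3 := congrArg (fun x : M => (x : Zr M)) hd
  have e4 := congrArg (fun x : M => (x : Zr M)) hg
  have e5 := congrArg (fun x : M => (x : Zr M)) hme
  push_cast at e1 e2 e3 e4 e5
  refine ⟨((j : Zr M) + 1) * (e * g) - 1, -(((k : Zr M) + 1) * (e * g)), ?_⟩
  linear_combination (-(e : Zr M) * g) * e1 + (e * g : Zr M) * e2 + (e * g : Zr M) * e3 - e5 -
    (e : Zr M) * e4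

theorem bb5 : S_BB5 := by
  intro M _ Q L c y h
  refine ⟨fun k hk => md_exists h k hk, ?_, ?_⟩
  · intro k m hk hm
    obtain ⟨⟨e, he, hme⟩, hc, hm1, hbn⟩ := md_basic h hk hm
    refine ⟨hm1, ?_, ?_, hbn, ?_⟩
    · rw [hc]; exact cg_of_add (dvd_mul_left _ _)
    · have key : ∀ z : M, k + 1 + z ≤ y → bn c (k + 1) ∣ bn c (k + 1 + z) := by
        intro z
        refine ind (P := fun z => k + 1 + z ≤ y → bn c (k + 1) ∣ bn c (k + 1 + z)) ?_ ?_ ?_ z
        · (repeat' first | with_reducible apply Pool.Agent.H87.EP.DefZ.eq | with_reducible apply Pool.Agent.H87.EP.DefZ.lt | with_reducible apply Pool.Agent.H87.EP.DefZ.le | with_reducible apply Pool.Agent.H87.EP.DefZ.dvd | with_reducible exact Pool.Agent.H87.EP.DefZ.const _ | with_reducible apply Pool.Agent.H87.EP.DefZ.coe | with_reducible apply Pool.Agent.H87.EP.DefZ.add | with_reducible apply Pool.Agent.H87.EP.DefZ.mul | with_reducible apply Pool.Agent.H87.EP.DefZ.sub | with_reducible apply Pool.Agent.H87.EP.DefZ.neg | with_reducible apply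 Pool.Agent.H87.EP.DefZ.npow | with_reducible apply Pool.Agent.H51.EP.Def.cg | with_reducible apply Pool.Agent.H51.EP.DefF.pr | with_reducible apply Pool.Agent.H51.EP.DefF.bn | with_reducible apply Pool.Agent.H51.EP.DefF.ff | with_reducible apply Pool.Agent.H51.EP.DefF.fc | with_reducible apply Pool.Agent.H51.EP.DefF.pw | with_reducible apply Pool.Agent.H51.EP.DefF.sb | with_reducible apply Pool.Agent.H51.EP.DefF.rc | with_reducible apply Pool.Agent.H51.EP.Def.dvd | assumption | with_reducible exact Pool.Agent.Helper687.Arith.DefF.var _ | with_reducible exact Pool.Agent.Helper687.Arith.DefF.const _ | with_reducible exact Pool.Agent.Helper687.Arith.Def.const _ | with_reducible apply Pool.Agent.Helper687.Arith.DefF.val | with_reducible apply Pool.Agent.Helper687.Arith.DefF.pow2 | with_reducible apply Pool.Agent.Helper687.Arith.Def.and | with_reducible apply Pool.Agent.Helper687.Arith.Def.or | with_reducible apply Pool.Agent.Helper687.Arith.Def.iff | with_reducible apply Pool.Agent.Helper687.Arith.Def.not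 | with_reducible apply Pool.Agent.Helper687.Arith.Def.ex | with_reducible apply Pool.Agent.Helper687.Arith.Def.all | with_reducible apply Pool.Agent.Helper687.Arith.Def.imp | with_reducible apply Pool.Agent.Helper687.Arith.Def.eq | with_reducible apply Pool.Agent.Helper687.Arith.Def.lt | with_reducible apply Pool.Agent.Helper687.Arith.Def.le | with_reducible apply Pool.Agent.Helper687.Arith.DefF.add | with_reducible apply Pool.Agent.Helper687.Arith.DefF.mul | with_reducible apply Pool.Agent.Helper687.Arith.DefF.the)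
        · intro _; rw [add_zero]
        · intro z ih hz
          rw [← add_assoc] at hz
          have hlt : k + 1 + z < y := succ_le_iff.mp hz
          obtain ⟨m', hm'⟩ := md_exists h _ hlt
          obtain ⟨-, -, -, hb⟩ := md_basic h hlt hm'
          rw [← add_assoc, hb]
          exact (ih hlt.le).mul_right _
      obtain ⟨z, hz⟩ := exists_add_of_le (succ_le_iff.mpr hk)
      have := key z hz.ge
      rw [← hz] at this
      refine Dvd.dvd.trans ?_ this
      rw [hbn]; exact dvd_mul_left _ _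
    · intro i hi hiQ
      obtain ⟨f, hf⟩ := h.dvd i hi hiQ
      refine ⟨e * f, 1, ?_⟩
      rw [one_mul, hme, hf]; ring
  · intro j k m n hj hk hjk hm hn
    have hm0 : 0 < m := zero_lt_one.trans (md_basic h hj hm).2.2.1
    have hn0 : 0 < n := zero_lt_one.trans (md_basic h hk hn).2.2.1
    apply cop_of_isCoprime hm0 hn0
    rcases lt_or_gt_of_ne hjk with hlt | hlt
    · exact md_cop_aux h hj hk hlt hm hn
    · exact (md_cop_aux h hk hj hlt hn hm).symm

end Pool.Agent.H26.EP
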