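import Pool.Agent.H87.EP.PStm

/-! Part PELL10 of the project EP: the uniqueness part of the theorem of Matiyasevich. -/

set_option autoImplicit false

namespace Pool.Agent.H26.EP

open Pool.Agent.Helper687.Arith Pool.Agent.H51.EP Pool.Agent.H87.EP

theorem pell10 : S_PELL10 := by
  intro M _ hid hord hcong hsol hydvd hstep a k x y ha hky hy0 hmat
  obtain ⟨u, v, s, t, b, hxy, huv, hst, hb, hbm, hba, hv0, hyv, hsx, htk⟩ := hmat
  have sol : ∀ {a x y : M}, 1 < a → x * x + y * y = a * a * (y * y) + 1 →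
      ∃ n : M, x = X a n ∧ y = Y a n := by
    intro a x y ha h
    apply hsol ha
    have h' := congrArg (fun x : M => (x : Zr M)) h
    push_cast at h'
    linear_combination h'
  obtain ⟨i, rfl, rfl⟩ := sol ha hxy
  obtain ⟨n, rfl, rfl⟩ := sol ha huv
  obtain ⟨j, rfl, rfl⟩ := sol hb hst
  have hi0 : 0 < i := by
    apply pos_of_ne
    rintro rfl
    rw [Y_zero] at hy0
    exact lt_irrefl _ hy0
  have e4 : ((4 : M) : Zr M) = 4 := Zr.coe_ofNat 4
  rw [cg_iff, Zr.coe_mul, e4, Zr.coe_one] at hbm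
  rw [cg_iff] at hba
  rw [cg_iff] at hsx
  rw [cg_iff, Zr.coe_mul, e4] at htk
  rw [← Zr.coe_dvd, Zr.coe_mul] at hyv
  have hin : i ≤ n := by
    by_contra hlt
    push Not at hlt
    have h1 := hord.Y_lt ha hlt
    have h2 : ((Y a i : M) : Zr M) ∣ ((Y a n : M) : Zr M) := (dvd_mul_right _ _).trans hyv
    have h3 : ((Y a i : M) : Zr M) ≤ ((Y a n : M) : Zr M) :=
      Zr.le_of_dvd (by rw [← Zr.coe_zero, Zr.coe_lt]; exact hv0) h2
    rw [Zr.coe_le] at h3
    exact absurd h3 (not_le.mpr h1)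
  have hyn : ((Y a i : M) : Zr M) ∣ ((n : M) : Zr M) := by
    apply hydvd ha
    rw [pow_two]; exact hyv
  have hjk : 4 * ((Y a i : M) : Zr M) ∣ (j : Zr M) - k := by
    have h1 := hbm.trans (hcong.sub_one hb j)
    have h2 := dvd_sub htk h1
    have e : ((Y b j : M) : Zr M) - k - (((Y b j : M) : Zr M) - j) = (j : Zr M) - k := by ring
    rwa [e] at h2
  have hX : ((X a n : M) : Zr M) ∣ ((X a j : M) : Zr M) - X a i := by
    have h1 := (hcong.base hb ha hba j).1
    have h2 := dvd_sub hsx h1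
    have e : ((X b j : M) : Zr M) - X a i - (((X b j : M) : Zr M) - X a j) =
      ((X a j : M) : Zr M) - X a i := by ring
    rwa [e] at h2
  have h4 : 4 * ((Y a i : M) : Zr M) ∣ 4 * (n : Zr M) := mul_dvd_mul_left _ hyn
  have hky' : (k : Zr M) ≤ ((Y a i : M) : Zr M) := Zr.coe_le.mpr hky
  have hiy : (i : Zr M) ≤ ((Y a i : M) : Zr M) := Zr.coe_le.mpr (hord.le_Y ha i)
  have hyp : (0 : Zr M) < ((Y a i : M) : Zr M) := by
    rw [← Zr.coe_zero, Zr.coe_lt]; exact hy0
  have hip : (0 : Zr M) < (i : Zr M) := by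
    rw [← Zr.coe_zero, Zr.coe_lt]; exact hi0
  have hkp : (0 : Zr M) ≤ (k : Zr M) := Zr.coe_nonneg k
  have hik : i = k := by
    rcases hstep ha hi0 hin hX with h | h
    · have h1 := dvd_sub (h4.trans h) hjk
      have e : (j : Zr M) - i - ((j : Zr M) - k) = (k : Zr M) - i := by ring
      rw [e] at h1
      rcases lt_trichotomy i k with hlt | heq | hgt
      · exfalso
        have h2 := Zr.le_of_dvd (by have := Zr.coe_lt.mpr hlt; linarith) h1
        linarith
      · exact heq
      · exfalso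
        have h1' : 4 * ((Y a i : M) : Zr M) ∣ (i : Zr M) - k := by
          rw [← neg_sub]; exact (dvd_neg).mpr h1
        have h2 := Zr.le_of_dvd (by have := Zr.coe_lt.mpr hgt; linarith) h1'
        linarith
    · exfalso
      have h1 := dvd_sub (h4.trans h) hjk
      have e : (j : Zr M) + i - ((j : Zr M) - k) = (k : Zr M) + i := by ring
      rw [e] at h1
      have h2 := Zr.le_of_dvd (by linarith) h1
      linarith
  rw [hik]
  exact ⟨rfl, rfl⟩

end Pool.Agent.H26.EP
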