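import Pool.Agent.H87.EP.PStm

/-! Part PELL9 of the project EP: the existence part of the theorem of Matiyasevich. -/

set_option autoImplicit false

namespace Pool.Agent.H26.EP

open Pool.Agent.Helper687.Arith Pool.Agent.H51.EP Pool.Agent.H87.EP

theorem pellEqM {M : Type} [PAModel M] (h : PellId M) {a : M} (ha : 1 < a) (n : M) :
    X a n * X a n + Y a n * Y a n = a * a * (Y a n * Y a n) + 1 := by
  have := h.eq ha n
  rw [← Zr.coe_inj]
  push_cast
  linear_combination this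

theorem pell9 : S_PELL9 := by
  intro M _ hid hord hcong hdvd hsq a k ha hk
  have hy0 : 0 < Y a k := hord.Y_pos ha hk
  set m : M := (k * Y a k) * 2 with hm
  have hm0 : 0 < m := by
    rw [hm]
    exact mul_pos (mul_pos hk hy0) (by norm_num)
  have hv0 : 0 < Y a m := hord.Y_pos ha hm0
  have hu0 : 0 < X a m := hord.X_pos ha m
  have hyv : ((Y a k : M) : Zr M) ^ 2 ∣ ((Y a m : M) : Zr M) :=
    (hsq ha k).trans (hdvd ha (k * Y a k) 2)
  have h2v : (2 : Zr M) ∣ ((Y a m : M) : Zr M) := by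
    have h1 := hcong.two ha m
    have h2 : (2 : Zr M) ∣ ((m : M) : Zr M) := by
      have e2 : ((2 : M) : Zr M) = 2 := Zr.coe_ofNat 2
      rw [hm, Zr.coe_mul, e2]; exact dvd_mul_left _ _
    have h3 := dvd_add h1 h2
    rwa [sub_add_cancel] at h3
  have hco := hord.coprime ha m
  have hco2 : IsCoprime ((X a m : M) : Zr M) 2 := hco.of_isCoprime_of_dvd_right h2v
  have hcoy : IsCoprime ((X a m : M) : Zr M) ((Y a k : M) : Zr M) :=
    hco.of_isCoprime_of_dvd_right ((dvd_pow_self _ two_ne_zero).trans hyv)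
  have hco4 : IsCoprime ((X a m : M) : Zr M) (4 * ((Y a k : M) : Zr M)) := by
    have h4 : (4 : Zr M) = 2 * 2 := by norm_num
    rw [h4]
    exact (hco2.mul_right hco2).mul_right hcoy
  obtain ⟨c, d, hcd⟩ := hco4
  set u : Zr M := ((X a m : M) : Zr M) with hu
  set y : Zr M := ((Y a k : M) : Zr M) with hy
  have hu1 : (1 : Zr M) ≤ u := by
    have : (0 : Zr M) < u := by rw [hu, ← Zr.coe_zero, Zr.coe_lt]; exact hu0
    have := Zr.lt_iff_add_one_le.mp this
    linarith
  have hy1 : (1 : Zr M) ≤ y := by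
    have : (0 : Zr M) < y := by rw [hy, ← Zr.coe_zero, Zr.coe_lt]; exact hy0
    have := Zr.lt_iff_add_one_le.mp this
    linarith
  set b0 : Zr M := (a : Zr M) * (d * (4 * y)) + c * u with hb0
  set b1 : Zr M := b0 + 4 * y * u * (b0 ^ 2 + 2) with hb1
  have hb1gt : (1 : Zr M) < b1 := by
    have h1 : (1 : Zr M) ≤ 4 * y * u := by nlinarith
    have h2 : (0 : Zr M) ≤ (b0 ^ 2 + 2) := by positivity
    have h3 : b0 ^ 2 + 2 ≤ 4 * y * u * (b0 ^ 2 + 2) := by nlinarith
    nlinarith [sq_nonneg (2 * b0 + 1), sq_nonneg b0]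
  obtain ⟨b, hb⟩ := Zr.nonneg_iff.mp (zero_le_one.trans hb1gt.le)
  have hbgt : 1 < b := by
    rw [← Zr.coe_lt, ← hb, Zr.coe_one]; exact hb1gt
  have hba : u ∣ (b : Zr M) - a := by
    rw [← hb]
    refine ⟨c * (1 - a) + 4 * y * (b0 ^ 2 + 2), ?_⟩
    rw [hb1]
    have : b0 - a = u * (c * (1 - a)) := by
      rw [hb0]; linear_combination (a : Zr M) * hcd
    linear_combination this
  have hbm : (4 * y) ∣ (b : Zr M) - 1 := by
    rw [← hb]
    refine ⟨d * (a - 1) + u * (b0 ^ 2 + 2), ?_⟩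
    rw [hb1]
    have : b0 - 1 = 4 * y * (d * (a - 1)) := by
      rw [hb0]; linear_combination hcd
    linear_combination this
  have e4 : ((4 : M) : Zr M) = 4 := Zr.coe_ofNat 4
  refine ⟨X a m, Y a m, X b k, Y b k, b, pellEqM hid ha k, pellEqM hid ha m, pellEqM hid hbgt k,
    hbgt, ?_, ?_, hv0, ?_, ?_, ?_⟩
  · rw [cg_iff, Zr.coe_mul, e4, Zr.coe_one]; exact hbm
  · rw [cg_iff]; exact hba
  · rw [← Zr.coe_dvd]; push_cast; rw [← pow_two]; exact hyv
  · rw [cg_iff]
    exact (hcong.base hbgt ha hba k).1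
  · rw [cg_iff, Zr.coe_mul, e4]
    exact hbm.trans (hcong.sub_one hbgt k)

end Pool.Agent.H26.EP
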